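import Mathlib

set_option autoImplicit false

namespace Pool.Agent.Results.MP_1a8fe4_co.AllExceptionsModEleven

universe u

/-- The restricted `h`-fold sumset: all sums of `h` distinct elements of `A`. -/
def restrictedSums {G : Type u} [AddCommGroup G] [DecidableEq G] (h : ℕ) (A : Finset G) :
    Finset G :=
  (A.powersetCard h).image (fun s => ∑ x ∈ s, x)

/-- `A` is an arithmetic progression of size `A.card`. -/
def IsAP {G : Type u} [AddCommGroup G] [DecidableEq G] (A : Finset G) : Prop :=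
  ∃ a d : G, A = (Finset.range A.card).image (fun i => a + i • d)

theorem restrictedSums_map {H : Type} {G : Type u} [AddCommGroup H] [DecidableEq H]
    [AddCommGroup G] [DecidableEq G] (f : H →+ G) (hf : Function.Injective f) (h : ℕ)
    (A : Finset H) :
    restrictedSums h (A.map ⟨f, hf⟩) = (restrictedSums h A).map ⟨f, hf⟩ := by
  unfold restrictedSums
  rw [Finset.powersetCard_map]
  ext x
  simp only [Finset.mem_image, Finset.mem_map, Function.Embedding.coeFn_mk]
  constructor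
  · rintro ⟨s, ⟨t, ht, rfl⟩, rfl⟩
    refine ⟨∑ x ∈ t, x, ⟨t, ht, rfl⟩, ?_⟩
    rw [map_sum]
    simp [Finset.mapEmbedding_apply, Finset.sum_map]
  · rintro ⟨y, ⟨t, ht, rfl⟩, rfl⟩
    refine ⟨_, ⟨t, ht, rfl⟩, ?_⟩
    rw [map_sum]
    simp [Finset.mapEmbedding_apply, Finset.sum_map]

theorem isAP_of_map {H : Type} {G : Type u} [AddCommGroup H] [DecidableEq H]
    [AddCommGroup G] [DecidableEq G] (f : H →+ G) (hf : Function.Injective f)
    (A : Finset H) (hA : 2 ≤ A.card) (hap : IsAP (A.map ⟨f, hf⟩)) : IsAP A := by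
  obtain ⟨a, d, h⟩ := hap
  rw [Finset.card_map] at h
  have ha : a ∈ A.map ⟨f, hf⟩ := by
    rw [h]
    exact Finset.mem_image.2 ⟨0, Finset.mem_range.2 (by omega), by simp⟩
  have hd : a + d ∈ A.map ⟨f, hf⟩ := by
    rw [h]
    exact Finset.mem_image.2 ⟨1, Finset.mem_range.2 (by omega), by simp⟩
  obtain ⟨a', -, ha'⟩ := Finset.mem_map.1 ha
  obtain ⟨b', -, hb'⟩ := Finset.mem_map.1 hd
  simp only [Function.Embedding.coeFn_mk] at ha' hb'
  have hd' : f (b' - a') = d := by rw [map_sub, hb', ha']; abel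
  refine ⟨a', b' - a', ?_⟩
  apply Finset.map_injective ⟨f, hf⟩
  rw [h]
  ext x
  simp only [Finset.mem_image, Finset.mem_map, Function.Embedding.coeFn_mk, Finset.mem_range]
  constructor
  · rintro ⟨i, hi, rfl⟩
    exact ⟨_, ⟨i, hi, rfl⟩, by rw [map_add, map_nsmul, ha', hd']⟩
  · rintro ⟨y, ⟨i, hi, rfl⟩, rfl⟩
    exact ⟨i, hi, by rw [map_add, map_nsmul, ha', hd']⟩

/-- The exceptional set in `ZMod 11`. -/
def A11 : Finset (ZMod 11) := {0, 1, 2, 4, 5, 7}

/-- The exceptional set in `ZMod 17`. -/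
def A17 : Finset (ZMod 17) := {0, 1, 2, 4, 10, 12, 13, 14}

theorem A11_card : A11.card = 6 := by decide +kernel
theorem A17_card : A17.card = 8 := by decide +kernel
theorem A11_sums : (restrictedSums 3 A11).card = 10 := by decide +kernel
theorem A17_sums3 : (restrictedSums 3 A17).card = 16 := by decide +kernel
theorem A17_sums5 : (restrictedSums 5 A17).card = 16 := by decide +kernel
theorem A11_not : ¬ IsAP A11 := by unfold IsAP; decide +kernel
theorem A17_not : ¬ IsAP A17 := by unfold IsAP; decide +kernel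

theorem exists_hom (G : Type u) [AddCommGroup G] [Fintype G] (p : ℕ) [Fact p.Prime]
    (hp : p ∣ Fintype.card G) : ∃ f : ZMod p →+ G, Function.Injective f := by
  obtain ⟨x, hx⟩ := exists_prime_addOrderOf_dvd_card p hp
  refine ⟨ZMod.lift p ⟨zmultiplesHom G x, by simp [← hx, addOrderOf_nsmul_eq_zero]⟩, ?_⟩
  rw [ZMod.lift_injective]
  intro m hm
  simp only [zmultiplesHom_apply] at hm
  rw [ZMod.intCast_zmod_eq_zero_iff_dvd, ← hx]
  exact addOrderOf_dvd_iff_zsmul_eq_zero.2 hm

theorem key (G : Type u) [AddCommGroup G] [Fintype G] [DecidableEq G] (p : ℕ) [Fact p.Prime]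
    (hp : Nat.minFac (Fintype.card G) = p) (A : Finset (ZMod p)) (hA : 2 ≤ A.card)
    (hnot : ¬ IsAP A) :
    ∃ B : Finset G, B.card = A.card ∧ ¬ IsAP B ∧
      ∀ h, (restrictedSums h B).card = (restrictedSums h A).card := by
  obtain ⟨f, hf⟩ := exists_hom G p (hp ▸ Nat.minFac_dvd _)
  refine ⟨A.map ⟨f, hf⟩, Finset.card_map _, fun h => hnot (isAP_of_map f hf A hA h),
    fun h => ?_⟩
  rw [restrictedSums_map, Finset.card_map]

/-- The elements of `s`, as an increasing list of natural numbers below 11. -/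
def enc (s : Finset (ZMod 11)) : List ℕ := (List.range 11).filter (fun i => (i : ZMod 11) ∈ s)

def cnt (h : ℕ) (l : List ℕ) : ℕ := ((l.sublistsLen h).map (fun s => s.sum % 11)).dedup.length

def apl (m a d : ℕ) : List ℕ := (List.range m).map (fun i => (a + i * d) % 11)

def iml (c d : ℕ) : List ℕ := [0, 1, 2, 4, 5, 7].map (fun x => (c + d * x) % 11)

theorem dec5 : ∀ l ∈ (List.range 11).sublistsLen 5, cnt 3 l = 7 →
    ∃ a ∈ List.range 11, ∃ d ∈ [1, 2, 3, 4, 5], ∀ x ∈ l, x ∈ apl 5 a d := by decide +kernel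

theorem dec64 : ∀ l ∈ (List.range 11).sublistsLen 6, cnt 4 l = 9 →
    ∃ a ∈ List.range 11, ∃ d ∈ [1, 2, 3, 4, 5], ∀ x ∈ l, x ∈ apl 6 a d := by decide +kernel

theorem dec63 : ∀ l ∈ (List.range 11).sublistsLen 6, cnt 3 l = 10 →
    (∃ a ∈ List.range 11, ∃ d ∈ [1, 2, 3, 4, 5], ∀ x ∈ l, x ∈ apl 6 a d) ∨
    ∃ c ∈ List.range 11, ∃ d ∈ [1, 2], ∀ x ∈ l, x ∈ iml c d := by decide +kernel

theorem nodup_cast {t : List ℕ} (hn : t.Nodup) (hlt : ∀ i ∈ t, i < 11) :
    (t.map (fun i : ℕ => (i : ZMod 11))).Nodup := by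
  refine (List.nodup_map_iff_inj_on hn).2 fun i hi j hj h => ?_
  have h0 := (ZMod.natCast_eq_natCast_iff' i j 11).1 h
  have h1 := hlt i hi
  have h2 := hlt j hj
  omega

theorem enc_nodup (s : Finset (ZMod 11)) : (enc s).Nodup := List.nodup_range.filter _

theorem enc_lt (s : Finset (ZMod 11)) : ∀ i ∈ enc s, i < 11 := fun i hi =>
  List.mem_range.1 (List.mem_filter.1 hi).1

theorem enc_mem (s : Finset (ZMod 11)) {i : ℕ} (hi : i ∈ enc s) : (i : ZMod 11) ∈ s := by
  simpa using (List.mem_filter.1 hi).2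

theorem mem_enc (s : Finset (ZMod 11)) {x : ZMod 11} (hx : x ∈ s) : x.val ∈ enc s :=
  List.mem_filter.2 ⟨List.mem_range.2 x.val_lt, by simpa using hx⟩

theorem enc_toFinset (s : Finset (ZMod 11)) :
    ((enc s).map (fun i : ℕ => (i : ZMod 11))).toFinset = s := by
  ext x
  rw [List.mem_toFinset, List.mem_map]
  constructor
  · rintro ⟨i, hi, rfl⟩
    exact enc_mem s hi
  · intro h
    exact ⟨x.val, mem_enc s h, by simp⟩

theorem enc_length (s : Finset (ZMod 11)) : (enc s).length = s.card := by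
  have h := List.toFinset_card_of_nodup (nodup_cast (enc_nodup s) (enc_lt s))
  rw [enc_toFinset, List.length_map] at h
  exact h.symm

theorem enc_sublist {s A : Finset (ZMod 11)} (h : s ⊆ A) : (enc s).Sublist (enc A) :=
  List.monotone_filter_right _ fun i hi => by
    simp only [decide_eq_true_eq] at hi ⊢
    exact h hi

theorem sum_cast {t : List ℕ} (hn : t.Nodup) (hlt : ∀ i ∈ t, i < 11) :
    (∑ x ∈ (t.map (fun i : ℕ => (i : ZMod 11))).toFinset, x).val = t.sum % 11 := by
  have h := List.sum_toFinset (fun x : ZMod 11 => x) (nodup_cast hn hlt)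
  rw [h, List.map_id', ← ZMod.val_natCast, Nat.cast_list_sum]

theorem card_eq_cnt (h : ℕ) (A : Finset (ZMod 11)) :
    (restrictedSums h A).card = cnt h (enc A) := by
  rw [cnt, ← List.card_toFinset, ← Finset.card_image_of_injective _ (ZMod.val_injective 11)]
  congr 1
  ext n
  simp only [restrictedSums, Finset.mem_image, Finset.mem_powersetCard, List.mem_toFinset,
    List.mem_map, List.mem_sublistsLen]
  constructor
  · rintro ⟨_, ⟨s, ⟨h1, h2⟩, rfl⟩, rfl⟩
    refine ⟨enc s, ⟨enc_sublist h1, by rw [enc_length, h2]⟩, ?_⟩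
    rw [← sum_cast (enc_nodup s) (enc_lt s), enc_toFinset]
  · rintro ⟨t, ⟨h1, h2⟩, rfl⟩
    have hn : t.Nodup := h1.nodup (enc_nodup A)
    have hlt : ∀ i ∈ t, i < 11 := fun i hi => enc_lt A i (h1.subset hi)
    refine ⟨_, ⟨(t.map (fun i : ℕ => (i : ZMod 11))).toFinset, ⟨?_, ?_⟩, rfl⟩, sum_cast hn hlt⟩
    · intro x hx
      rw [List.mem_toFinset, List.mem_map] at hx
      obtain ⟨i, hi, rfl⟩ := hx
      exact enc_mem A (h1.subset hi)
    · rw [List.toFinset_card_of_nodup (nodup_cast hn hlt), List.length_map, h2]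

theorem enc_in (A : Finset (ZMod 11)) (m : ℕ) (h : A.card = m) :
    enc A ∈ (List.range 11).sublistsLen m := by
  rw [List.mem_sublistsLen]
  exact ⟨List.filter_sublist, by rw [enc_length, h]⟩

theorem ap_of (A : Finset (ZMod 11)) (m : ℕ) (hm : A.card = m) (a d : ℕ)
    (h : ∀ x ∈ enc A, x ∈ apl m a d) : IsAP A := by
  refine ⟨a, d, Finset.eq_of_subset_of_card_le ?_ (Finset.card_image_le.trans (by simp))⟩
  intro x hx
  obtain ⟨i, hi, hix⟩ := List.mem_map.1 (h _ (mem_enc A hx))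
  rw [List.mem_range] at hi
  refine Finset.mem_image.2 ⟨i, Finset.mem_range.2 (hm ▸ hi), ?_⟩
  have h1 := congrArg (Nat.cast : ℕ → ZMod 11) hix
  rw [ZMod.natCast_mod, ZMod.natCast_zmod_val] at h1
  rw [← h1]
  push_cast
  simp

theorem im_of (A : Finset (ZMod 11)) (hm : A.card = 6) (c d : ℕ)
    (h : ∀ x ∈ enc A, x ∈ iml c d) : A = A11.image (fun x => (c : ZMod 11) + d * x) := by
  refine Finset.eq_of_subset_of_card_le ?_ (Finset.card_image_le.trans (by rw [A11_card, hm]))
  intro x hx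
  obtain ⟨y, hy, hyx⟩ := List.mem_map.1 (h _ (mem_enc A hx))
  refine Finset.mem_image.2 ⟨(y : ZMod 11), ?_, ?_⟩
  · simp only [List.mem_cons, List.not_mem_nil, or_false] at hy
    rcases hy with rfl | rfl | rfl | rfl | rfl | rfl <;> decide
  · have h1 := congrArg (Nat.cast : ℕ → ZMod 11) hyx
    rw [ZMod.natCast_mod, ZMod.natCast_zmod_val] at h1
    rw [← h1]
    push_cast
    rfl

/-- All exceptions modulo 11. -/
theorem mod11 (A : Finset (ZMod 11)) (h : ℕ) (h3 : 3 ≤ h) (hm : h + 2 ≤ A.card)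
    (hT : h * A.card - h ^ 2 + 1 < 11)
    (hA : (restrictedSums h A).card = h * A.card - h ^ 2 + 1) :
    IsAP A ∨ (A.card = 6 ∧ h = 3 ∧ ∃ c d : ZMod 11, A = A11.image (fun x => c + d * x)) := by
  rw [card_eq_cnt] at hA
  obtain ⟨k, hk⟩ : ∃ k, A.card = h + 2 + k := ⟨A.card - (h + 2), by omega⟩
  have e : h * A.card - h ^ 2 = h * (k + 2) := by
    rw [hk]
    have : h * (h + 2 + k) = h ^ 2 + h * (k + 2) := by ring
    rw [this]
    exact Nat.add_sub_cancel_left _ _
  rw [e] at hT hA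
  have hh : h ≤ 4 := by nlinarith
  have hk1 : k ≤ 1 := by nlinarith
  interval_cases h <;> interval_cases k
  · obtain ⟨a, -, d, -, h1⟩ := dec5 _ (enc_in A 5 (by omega)) (by omega)
    exact Or.inl (ap_of A 5 (by omega) a d h1)
  · rcases dec63 _ (enc_in A 6 (by omega)) (by omega) with ⟨a, -, d, -, h1⟩ | ⟨c, -, d, -, h1⟩
    · exact Or.inl (ap_of A 6 (by omega) a d h1)
    · exact Or.inr ⟨by omega, rfl, c, d, im_of A (by omega) c d h1⟩
  · obtain ⟨a, -, d, -, h1⟩ := dec64 _ (enc_in A 6 (by omega)) (by omega)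
    exact Or.inl (ap_of A 6 (by omega) a d h1)
  · omega

/-- Every finite abelian group whose order has least prime factor 11, and every one whose order
has least prime factor 17, violates the conjectured classification: with `p` the least prime
factor, `p > hm - h^2 + 1` and the restricted sumset has exactly `hm - h^2 + 1` elements, but `A`
is not an arithmetic progression (and, as `3 ≤ h ≤ m - 2`, none of the other cases holds);
`(p, m, h)` is `(11, 6, 3)`, `(17, 8, 3)`, `(17, 8, 5)`. In `ZMod 11` itself all exceptions are the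
images of `{0, 1, 2, 4, 5, 7}` under the affine maps, with `h = 3`. -/
theorem result :
    (∀ (G : Type u) [AddCommGroup G] [Fintype G] [DecidableEq G],
      Nat.minFac (Fintype.card G) = 11 →
      ∃ A : Finset G, A.card = 6 ∧ 3 * A.card - 3 ^ 2 + 1 < Nat.minFac (Fintype.card G) ∧
        (restrictedSums 3 A).card = 3 * A.card - 3 ^ 2 + 1 ∧ ¬ IsAP A) ∧
    (∀ (G : Type u) [AddCommGroup G] [Fintype G] [DecidableEq G],
      Nat.minFac (Fintype.card G) = 17 →
      ∃ A : Finset G, A.card = 8 ∧ ¬ IsAP A ∧ ∀ h : ℕ, h = 3 ∨ h = 5 →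
        h * A.card - h ^ 2 + 1 < Nat.minFac (Fintype.card G) ∧
        (restrictedSums h A).card = h * A.card - h ^ 2 + 1) ∧
    (∀ (A : Finset (ZMod 11)) (h : ℕ), 3 ≤ h → h + 2 ≤ A.card → h * A.card - h ^ 2 + 1 < 11 →
      (restrictedSums h A).card = h * A.card - h ^ 2 + 1 →
      IsAP A ∨ (A.card = 6 ∧ h = 3 ∧ ∃ c d : ZMod 11, A = A11.image (fun x => c + d * x))) := by
  refine ⟨?_, ?_, mod11⟩
  · intro G _ _ _ hG
    have : Fact (Nat.Prime 11) := ⟨by norm_num⟩
    obtain ⟨B, h1, h2, h3⟩ := key G 11 hG A11 (by rw [A11_card]; norm_num) A11_not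
    rw [A11_card] at h1
    refine ⟨B, h1, ?_, ?_, h2⟩
    · rw [hG, h1]; norm_num
    · rw [h3, h1, A11_sums]; norm_num
  · intro G _ _ _ hG
    have : Fact (Nat.Prime 17) := ⟨by norm_num⟩
    obtain ⟨B, h1, h2, h3⟩ := key G 17 hG A17 (by rw [A17_card]; norm_num) A17_not
    rw [A17_card] at h1
    refine ⟨B, h1, h2, ?_⟩
    rintro h (rfl | rfl)
    · rw [hG, h1, h3, A17_sums3]; norm_num
    · rw [hG, h1, h3, A17_sums5]; norm_num

end Pool.Agent.Results.MP_1a8fe4_co.AllExceptionsModEleven
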